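import Pool.Agent.W550.BB.Main

/-!
# Bloch-Beilinson filtrations can be tested on one variety at a time

The definitions are in `Pool/Agent/W550/BB/Defs.lean` and `Pool/Agent/W492/BB/Defs.lean`.
-/

open CategoryTheory AlgebraicGeometry

universe u v w

namespace Pool.Agent.Results.MP_08891c_ag.OneVariety

open Pool.Agent.H914 Pool.Agent.W492.BB Pool.Agent.W550.BB

/-- Let `C` be the Chow groups with rational coefficients of a class of varieties closed under
products (for example all smooth projective complex varieties), `H` a Weil cohomology theory
(Betti cohomology), `J` a system of Abel-Jacobi maps (Griffiths' Abel-Jacobi maps) and `D` a set of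
varieties which dominates all varieties of the class (for example all varieties with ample
canonical bundle). The following are equivalent: there is a Bloch-Beilinson filtration on all
varieties simultaneously; every single variety `X` has a filtration with the properties 1 to 4 for
the self-correspondences of `X`; every `X` in `D` has a weak filtration (no functoriality except
property 4 for the self-correspondences of `X`); every chain of correspondences
which ends in `CH^i(X)` at the level `i + 1` produces only the class `0`. -/
theorem result {k : Type u} [Field k] {𝒱 : VarClass k} (C : TheoryData.{u, v, 0} 𝒱 ℚ)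
    [IsChow C] {K : Type w} [Field K] (H : WeilTheoryData.{u, v, w} C K) [IsWeil H]
    (J : AJData C) (hJ : IsAbelJacobi H J) (D : Set 𝒱.Obj) (hD : Dominating C D) :
    [∃ F : Filtration C, IsBBOn H J Set.univ F,
     ∀ X : 𝒱.Obj, ∃ F : Filtration C, IsBBOn H J {X} F,
     ∀ X ∈ D, ∃ F : ℕ → ℕ → Set (C.A X), IsWeakBB H J X F,
     ∀ (X : 𝒱.Obj) (i : ℕ) (x : C.A X), AJChain H J (i + 1) X i x → x = 0].TFAE :=
  tfae hJ hD

end Pool.Agent.Results.MP_08891c_ag.OneVariety
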